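import Pool.Agent.SPU.All2

/-!
Almost primes `k 2^n + 1` with an absolute number of prime factors, for almost all `k` which are not
covered by a finite set of primes.
-/

set_option autoImplicit false

namespace Pool.Agent.Results.MP_315051_nt.AlmostPrimes

/-- There are `r0` and `K > 0` such that: `K` is the infimum, over the finite sets `P` of primes, of
the density of the odd `k` which are not covered by `P` (the first two properties), and for every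
`r ≥ r0`: for every `ε > 0` there are a finite set `P` of primes and `c > 0` such that all but at
most `ε x` of the odd `k ≤ x` are covered by `P` or have a `k 2^n + 1`, `n ≥ 1`, with at most `r`
prime factors, all larger than `k^c`; and for every function `g` with `g k → ∞` and `g k ≤ k^c` for
all `c > 0` and all large `k`, the number of the odd `k ≤ x` for which some `k 2^n + 1`, `n ≥ 1`, has
at most `r` prime factors, all larger than `g k`, is `K x + o(x)`. -/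
theorem result : ∃ (r0 : ℕ) (K : ℝ), 0 < K ∧
    (∀ P : Finset ℕ, (∀ p ∈ P, p.Prime) → ∀ ε : ℝ, 0 < ε → ∃ x0 : ℕ, ∀ x : ℕ, x0 ≤ x →
      (K - ε) * x ≤ (({k : ℕ | k ≤ x ∧ Odd k ∧
        ¬ ∀ n : ℕ, 1 ≤ n → ∃ p ∈ P, p ∣ k * 2 ^ n + 1}.ncard : ℕ) : ℝ)) ∧
    (∀ ε : ℝ, 0 < ε → ∃ P : Finset ℕ, (∀ p ∈ P, p.Prime) ∧ ∃ x0 : ℕ, ∀ x : ℕ, x0 ≤ x →
      (({k : ℕ | k ≤ x ∧ Odd k ∧
        ¬ ∀ n : ℕ, 1 ≤ n → ∃ p ∈ P, p ∣ k * 2 ^ n + 1}.ncard : ℕ) : ℝ) ≤ (K + ε) * x) ∧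
    ∀ r : ℕ, r0 ≤ r →
      (∀ ε : ℝ, 0 < ε → ∃ (P : Finset ℕ) (c : ℝ), (∀ p ∈ P, p.Prime) ∧ 0 < c ∧
        ∃ x0 : ℕ, ∀ x : ℕ, x0 ≤ x →
          (({k : ℕ | k ≤ x ∧ Odd k ∧ ¬ (∀ n : ℕ, 1 ≤ n → ∃ p ∈ P, p ∣ k * 2 ^ n + 1) ∧
            ¬ ∃ n : ℕ, 1 ≤ n ∧ (k * 2 ^ n + 1).primeFactorsList.length ≤ r ∧
              ∀ p : ℕ, p.Prime → p ∣ k * 2 ^ n + 1 → (k : ℝ) ^ c < p}.ncard : ℕ) : ℝ) ≤
                ε * x) ∧
      ∀ g : ℕ → ℝ, Filter.Tendsto g Filter.atTop Filter.atTop →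
        (∀ c : ℝ, 0 < c → ∃ k0 : ℕ, ∀ k : ℕ, k0 ≤ k → g k ≤ (k : ℝ) ^ c) →
        ∀ ε : ℝ, 0 < ε → ∃ x0 : ℕ, ∀ x : ℕ, x0 ≤ x →
          |(({k : ℕ | k ≤ x ∧ Odd k ∧
            ∃ n : ℕ, 1 ≤ n ∧ (k * 2 ^ n + 1).primeFactorsList.length ≤ r ∧
              ∀ p : ℕ, p.Prime → p ∣ k * 2 ^ n + 1 → g k < p}.ncard : ℕ) : ℝ) - K * x| ≤
                ε * x := by
  obtain ⟨r0, K, h0, h1, h2, h⟩ := Pool.Agent.SPU.f_all
  refine ⟨r0, K, h0, ?_, ?_, fun r hr => ?_⟩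
  · simp only [Pool.Agent.SPA.cnt_eq] at h1
    exact h1
  · simp only [Pool.Agent.SPA.cnt_eq] at h2
    exact h2
  · have h3 := h r hr
    simp only [Pool.Agent.SPA.cnt_eq] at h3
    exact h3

end Pool.Agent.Results.MP_315051_nt.AlmostPrimes
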