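import Pool.Agent.CGR.All

/-!
The density of the odd `k` for which some `k 2^n + 1` belongs to a random set of Cramer-Granville
type.
-/

set_option autoImplicit false

open Finset MeasureTheory ProbabilityTheory

namespace Pool.Agent.Results.MP_315051_nt.CramerGranville

/-- There is `K > 0` such that `K` is the infimum, over the finite sets `P` of primes, of the
density of the odd `k` which are not covered by `P` (the first two properties), and such that the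
following holds for every nondecreasing `g : ℕ → ℕ` with `g → ∞`, with `g m ≤ m^c` for all `c > 0`
and all large `m`, and with `g (m^2) ≤ (g m)^C` for some `C` and all large `m`. Let `S m` be
independent events on a probability space, with probability `0` if `m` has a prime factor `≤ g m`,
and with probability at least `min 1 (δ / (V log m))`, where `V` is the product of `1 - 1/p` over the
primes `p ≤ g m`, if `m ≥ 2` has no such prime factor; here `δ > 0`. Then almost surely the number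
of the odd `k ≤ x` for which some `S (k 2^n + 1)`, `n ≥ 1`, occurs is `K x + o(x)`. -/
theorem result : ∃ K : ℝ, 0 < K ∧
    (∀ P : Finset ℕ, (∀ p ∈ P, p.Prime) → ∀ ε : ℝ, 0 < ε → ∃ x0 : ℕ, ∀ x : ℕ, x0 ≤ x →
      (K - ε) * x ≤ (({k : ℕ | k ≤ x ∧ Odd k ∧
        ¬ ∀ n : ℕ, 1 ≤ n → ∃ p ∈ P, p ∣ k * 2 ^ n + 1}.ncard : ℕ) : ℝ)) ∧
    (∀ ε : ℝ, 0 < ε → ∃ P : Finset ℕ, (∀ p ∈ P, p.Prime) ∧ ∃ x0 : ℕ, ∀ x : ℕ, x0 ≤ x →
      (({k : ℕ | k ≤ x ∧ Odd k ∧
        ¬ ∀ n : ℕ, 1 ≤ n → ∃ p ∈ P, p ∣ k * 2 ^ n + 1}.ncard : ℕ) : ℝ) ≤ (K + ε) * x) ∧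
    ∀ g : ℕ → ℕ, Monotone g → Filter.Tendsto g Filter.atTop Filter.atTop →
      (∀ c : ℝ, 0 < c → ∃ m0 : ℕ, ∀ m : ℕ, m0 ≤ m → (g m : ℝ) ≤ (m : ℝ) ^ c) →
      (∃ C m0 : ℕ, ∀ m : ℕ, m0 ≤ m → g (m ^ 2) ≤ g m ^ C) →
      ∀ (Ω : Type) (_ : MeasurableSpace Ω) (μ : Measure Ω) (_ : IsProbabilityMeasure μ)
        (S : ℕ → Set Ω) (δ : ℝ), 0 < δ → (∀ m, MeasurableSet (S m)) → iIndepSet S μ →
        (∀ m : ℕ, (∃ p : ℕ, p.Prime ∧ p ≤ g m ∧ p ∣ m) → μ (S m) = 0) →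
        (∀ m : ℕ, 2 ≤ m → (∀ p : ℕ, p.Prime → p ≤ g m → ¬ p ∣ m) →
          min 1 (δ / ((∏ p ∈ (Icc 1 (g m)).filter Nat.Prime, (1 - 1 / (p : ℝ))) *
            Real.log m)) ≤ μ.real (S m)) →
        ∀ᵐ ω ∂μ, Filter.Tendsto
          (fun x : ℕ => (({k : ℕ | k ≤ x ∧ Odd k ∧
            ∃ n : ℕ, 1 ≤ n ∧ ω ∈ S (k * 2 ^ n + 1)}.ncard : ℕ) : ℝ) / x)
          Filter.atTop (nhds K) := by
  obtain ⟨K, h0, h1, h2, h⟩ := Pool.Agent.CGR.g_all
  refine ⟨K, h0, ?_, ?_, ?_⟩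
  · simp only [Pool.Agent.SPA.cnt_eq] at h1
    exact h1
  · simp only [Pool.Agent.SPA.cnt_eq] at h2
    exact h2
  · simp only [Pool.Agent.SPA.cnt_eq] at h
    exact h

end Pool.Agent.Results.MP_315051_nt.CramerGranville
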