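import Pool.Agent.SPU.All

/-!
The density in the question of Erdős and Odlyzko at the level of numbers without small prime
factors, and the primes `k 2^n + 1` with `n ≤ A log x`.
-/

set_option autoImplicit false

namespace Pool.Agent.Results.MP_315051_nt.SieveDensity

/-- Let `K` be the infimum, over the finite sets `P` of primes, of the density of the odd `k` which
are not covered by `P` (the first two properties). Then `K > 0`; there is `c0 > 0` such that for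
every fixed `c` with `0 < c ≤ c0` the number of the odd `k ≤ x` for which some `k 2^n + 1`, `n ≥ 1`,
has no prime factor `≤ k^c` is `K x + o(x)`; the upper density of the odd `k` for which some
`k 2^n + 1`, `n ≥ 1`, is prime is at most `K`; and for some `C > 0`, every `A > 0` and all large `x`
at most `(K - exp (- C (A + 1))) x` odd `k ≤ x` have a prime `k 2^n + 1` with
`1 ≤ n ≤ A log x`. -/
theorem result : ∃ K : ℝ, 0 < K ∧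
    (∀ P : Finset ℕ, (∀ p ∈ P, p.Prime) → ∀ ε : ℝ, 0 < ε → ∃ x0 : ℕ, ∀ x : ℕ, x0 ≤ x →
      (K - ε) * x ≤ (({k : ℕ | k ≤ x ∧ Odd k ∧
        ¬ ∀ n : ℕ, 1 ≤ n → ∃ p ∈ P, p ∣ k * 2 ^ n + 1}.ncard : ℕ) : ℝ)) ∧
    (∀ ε : ℝ, 0 < ε → ∃ P : Finset ℕ, (∀ p ∈ P, p.Prime) ∧ ∃ x0 : ℕ, ∀ x : ℕ, x0 ≤ x →
      (({k : ℕ | k ≤ x ∧ Odd k ∧
        ¬ ∀ n : ℕ, 1 ≤ n → ∃ p ∈ P, p ∣ k * 2 ^ n + 1}.ncard : ℕ) : ℝ) ≤ (K + ε) * x) ∧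
    (∃ c0 : ℝ, 0 < c0 ∧ ∀ c : ℝ, 0 < c → c ≤ c0 → ∀ ε : ℝ, 0 < ε → ∃ x0 : ℕ, ∀ x : ℕ, x0 ≤ x →
      |(({k : ℕ | k ≤ x ∧ Odd k ∧ ∃ n : ℕ, 1 ≤ n ∧
        ∀ p : ℕ, p.Prime → p ∣ k * 2 ^ n + 1 → (k : ℝ) ^ c < p}.ncard : ℕ) : ℝ) - K * x| ≤
          ε * x) ∧
    (∀ ε : ℝ, 0 < ε → ∃ x0 : ℕ, ∀ x : ℕ, x0 ≤ x →
      (({k : ℕ | k ≤ x ∧ Odd k ∧ ∃ n : ℕ, 1 ≤ n ∧ (k * 2 ^ n + 1).Prime}.ncard : ℕ) : ℝ) ≤
        (K + ε) * x) ∧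
    ∃ C : ℝ, 0 < C ∧ ∀ A : ℝ, 0 < A → ∃ x0 : ℕ, ∀ x : ℕ, x0 ≤ x →
      (({k : ℕ | k ≤ x ∧ Odd k ∧ ∃ n : ℕ, 1 ≤ n ∧ (n : ℝ) ≤ A * Real.log x ∧
        (k * 2 ^ n + 1).Prime}.ncard : ℕ) : ℝ) ≤
          (K - Real.exp (-(C * (A + 1)))) * x := by
  obtain ⟨K, h0, h1, h2, h3, h4, h5⟩ := Pool.Agent.SPU.d_all
  simp only [Pool.Agent.SPA.cnt_eq] at h1 h2 h3 h4 h5
  exact ⟨K, h0, h1, h2, h3, h4, h5⟩

end Pool.Agent.Results.MP_315051_nt.SieveDensity
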